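import Mathlib

/-!
# Finite groups of symplectomorphisms on the Bogomolov-Miyaoka-Yau line

`SymplecticAction G M` collects what is used of a faithful action of a finite group `G` by
symplectomorphisms on a closed simply connected symplectic four-manifold `M` with `3σ(M) = χ(M)`.
For such `M` one has `b⁺ = 2σ - 1` and `b⁻ = σ - 1`.
-/

namespace Pool.Agent.H18.SY

open Matrix

/-- A surface of fixed points of a symplectomorphism: its set of points, its genus, its
self-intersection number, and the eigenvalue of the differential on the normal bundle. -/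
structure Surface (M : Type) where
  carrier : Set M
  genus : ℕ
  square : ℤ
  normal : ℂ

/-- The number of dimensions moved by a linear map: the rank of `A - 1`. -/
noncomputable def moved {n : ℕ} (A : Matrix (Fin n) (Fin n) ℝ) : ℕ := (A - 1).rank

/-- The data of a faithful action of a finite group `G` by symplectomorphisms on a closed simply
connected symplectic four-manifold `M` with `3σ = χ`. -/
structure SymplecticAction (G M : Type) [Group G] [MulAction G M] where
  /-- the signature of `M`; the Euler characteristic is `3σ` -/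
  σ : ℕ
  pos : 0 < σ
  /-- the action on a maximal positive subspace `H⁺` of `H²(M;ℝ)`, of dimension `2σ - 1` -/
  Hp : G →* Matrix (Fin (2 * σ - 1)) (Fin (2 * σ - 1)) ℝ
  /-- the action on the orthogonal complement `H⁻`, of dimension `σ - 1` -/
  Hm : G →* Matrix (Fin (σ - 1)) (Fin (σ - 1)) ℝ
  /-- the class of the symplectic form, which lies in `H⁺` for a suitable choice of `H⁺`, and is
  invariant -/
  form : Fin (2 * σ - 1) → ℝ
  form_ne : form ≠ 0
  form_inv : ∀ g, Hp g *ᵥ form = form
  /-- the differential of `g` on the complex plane `T_x M`, for `g x = x` -/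
  lin : G → M → Matrix (Fin 2) (Fin 2) ℂ
  lin_one : ∀ x, lin 1 x = 1
  lin_mul : ∀ g h x, g • x = x → h • x = x → lin (g * h) x = lin g x * lin h x
  /-- the isolated fixed points of `g ≠ 1` -/
  iso : G → Finset M
  mem_iso : ∀ g, g ≠ 1 → ∀ x, x ∈ iso g ↔ g • x = x ∧ (1 - lin g x).det ≠ 0
  /-- the surfaces of fixed points of `g ≠ 1` -/
  surfaces : G → List (Surface M)
  mem_surfaces : ∀ g, g ≠ 1 → ∀ x, g • x = x → (1 - lin g x).det = 0 →
    ∃ S ∈ surfaces g, x ∈ S.carrier
  normal_pow : ∀ g, g ≠ 1 → ∀ S ∈ surfaces g, S.normal ^ orderOf g = 1 ∧ S.normal ≠ 1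
  /-- Lefschetz' fixed point formula -/
  lefschetz : ∀ g, g ≠ 1 → 2 + (Hp g).trace + (Hm g).trace
    = (iso g).card + ((surfaces g).map fun S => 2 - 2 * (S.genus : ℝ)).sum
  /-- the `G`-signature theorem -/
  signature : ∀ g, g ≠ 1 → (((Hp g).trace - (Hm g).trace : ℝ) : ℂ)
    = ∑ x ∈ iso g, (1 + lin g x).det / (1 - lin g x).det
      + ((surfaces g).map fun S => (S.square : ℂ) * (-4 * S.normal / (1 - S.normal) ^ 2)).sum
  /-- Edmonds' theorem (Smith theory), for elements of prime order -/
  edmonds : ∀ g, (orderOf g).Prime →
    (orderOf g - 1) * ((surfaces g).map fun S => 2 * S.genus).sum ≤ moved (Hp g) + moved (Hm g)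

variable {G M : Type} [Group G] [MulAction G M]

/-- `M` is not `ℂP²`: every symplectic surface `S` of fixed points has `S² < 0` or `K·S ≥ 0`. -/
def SymplecticAction.NotPlane (D : SymplecticAction G M) : Prop :=
  ∀ g, g ≠ 1 → ∀ S ∈ D.surfaces g, S.square < 0 ∨ S.square ≤ 2 * (S.genus : ℤ) - 2

/-- `M` is minimal: no sphere of fixed points has self-intersection `-1`. -/
def SymplecticAction.Minimal (D : SymplecticAction G M) : Prop :=
  ∀ g, g ≠ 1 → ∀ S ∈ D.surfaces g, S.genus = 0 → S.square ≠ -1

/-- the number of spheres of fixed points -/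
def SymplecticAction.spheres (D : SymplecticAction G M) (g : G) : ℕ :=
  (D.surfaces g).countP fun S => S.genus = 0

/-- the number of surfaces of fixed points of positive genus -/
def SymplecticAction.higher (D : SymplecticAction G M) (g : G) : ℕ :=
  (D.surfaces g).countP fun S => S.genus ≠ 0

open Classical in
/-- the number of isolated fixed points at which `dg` has determinant different from `1` -/
noncomputable def SymplecticAction.special (D : SymplecticAction G M) (g : G) : ℕ :=
  ((D.iso g).filter fun x => (D.lin g x).det ≠ 1).card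

end Pool.Agent.H18.SY
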