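import Mathlib
import Pool.Agent.H18.SY.Defs

/-!
# Matrices of order two and three
-/

namespace Pool.Agent.H18.SY

open Matrix

section Real

variable {n : ℕ}

/-- the trace of an idempotent real matrix is its rank -/
lemma trace_idem (P : Matrix (Fin n) (Fin n) ℝ) (hP : P * P = P) : P.trace = (P.rank : ℝ) := by
  have h1 : IsIdempotentElem (Matrix.toLin' P) := by
    unfold IsIdempotentElem
    rw [Module.End.mul_eq_comp, ← Matrix.toLin'_mul, hP]
  have h2 := (LinearMap.IsIdempotentElem.isProj_range _ h1).trace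
  rw [Matrix.trace_toLin'_eq] at h2
  rw [h2]
  rfl

/-- a real matrix of order two -/
lemma trace_two (A : Matrix (Fin n) (Fin n) ℝ) (hA : A * A = 1) :
    A.trace = n - 2 * (moved A : ℝ) := by
  set P : Matrix (Fin n) (Fin n) ℝ := (1 / 2 : ℝ) • (1 - A) with hPdef
  have hP : P * P = P := by
    have h : (1 - A) * (1 - A) = (2 : ℝ) • (1 - A) := by
      have : (1 - A) * (1 - A) = 1 - A - A + A * A := by noncomm_ring
      rw [this, hA, two_smul]; abel
    rw [hPdef, Matrix.smul_mul, Matrix.mul_smul, h, smul_smul, smul_smul]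
    norm_num
  have h1 := trace_idem P hP
  have h2 : P.rank = moved A := by
    have h3 : P = (A - 1) * ((-1 / 2 : ℝ) • 1) := by
      rw [Matrix.mul_smul, Matrix.mul_one, hPdef, ← neg_sub A 1, smul_neg, ← neg_smul]
      norm_num
    have h4 : (A - 1) = P * ((-2 : ℝ) • 1) := by
      rw [Matrix.mul_smul, Matrix.mul_one, hPdef, smul_smul, ← neg_sub A 1, smul_neg, ← neg_smul]
      norm_num
    refine le_antisymm ?_ ?_
    · rw [h3]; exact Matrix.rank_mul_le_left _ _
    · unfold moved
      conv_lhs => rw [h4]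
      exact Matrix.rank_mul_le_left _ _
  rw [h2, hPdef, Matrix.trace_smul, Matrix.trace_sub, Matrix.trace_one, Fintype.card_fin,
    smul_eq_mul] at h1
  linarith

/-- a real matrix of order three has the trace of its square -/
lemma trace_sq (A : Matrix (Fin n) (Fin n) ℝ) (hA : A * A * A = 1) :
    (A * A).trace = A.trace := by
  set S : Matrix (Fin n) (Fin n) ℝ := 1 + Aᵀ * A + (A * A)ᵀ * (A * A) with hS
  have hpos : S.PosDef := by
    rw [hS]
    have h1 : (1 : Matrix (Fin n) (Fin n) ℝ).PosDef := Matrix.PosDef.one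
    have h2 : (Aᵀ * A).PosSemidef := by
      have := Matrix.posSemidef_conjTranspose_mul_self A
      rwa [Matrix.conjTranspose_eq_transpose_of_trivial] at this
    have h3 : ((A * A)ᵀ * (A * A)).PosSemidef := by
      have := Matrix.posSemidef_conjTranspose_mul_self (A * A)
      rwa [Matrix.conjTranspose_eq_transpose_of_trivial] at this
    exact (h1.add_posSemidef h2).add_posSemidef h3
  have hinv : IsUnit S := hpos.isUnit
  have hT : (A * A * A)ᵀ = 1 := by rw [hA, Matrix.transpose_one]
  have h3T : Aᵀ * Aᵀ * Aᵀ = 1 := by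
    rw [Matrix.transpose_mul, Matrix.transpose_mul] at hT
    rw [Matrix.mul_assoc]; exact hT
  have hASA : Aᵀ * S * A = S := by
    rw [hS, Matrix.transpose_mul]
    have e : Aᵀ * (1 + Aᵀ * A + Aᵀ * Aᵀ * (A * A)) * A
        = Aᵀ * A + Aᵀ * Aᵀ * (A * A) + (Aᵀ * Aᵀ * Aᵀ) * (A * A * A) := by noncomm_ring
    rw [e, h3T, hA]
    rw [Matrix.one_mul]
    abel
  -- `Aᵀ S = S A²`
  have h4 : Aᵀ * S = S * (A * A) := by
    have : Aᵀ * S * A * (A * A) = S * (A * A) := by rw [hASA]
    have e : Aᵀ * S * A * (A * A) = Aᵀ * S * (A * A * A) := by noncomm_ring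
    rw [e, hA, Matrix.mul_one] at this
    exact this
  obtain ⟨u, hu⟩ := hinv
  have h5 : A * A = (u⁻¹ : (Matrix (Fin n) (Fin n) ℝ)ˣ) * (Aᵀ * S) := by
    rw [h4, ← hu, Units.inv_mul_cancel_left]
  rw [h5, Matrix.trace_mul_comm, Matrix.mul_assoc, ← hu, Units.mul_inv, Matrix.mul_one,
    Matrix.trace_transpose]

/-- a real matrix of order three -/
lemma trace_three (A : Matrix (Fin n) (Fin n) ℝ) (hA : A * A * A = 1) :
    A.trace = n - 3 / 2 * (moved A : ℝ) := by
  set P : Matrix (Fin n) (Fin n) ℝ := (1 / 3 : ℝ) • (1 + 1 - A - A * A) with hPdef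
  have hP : P * P = P := by
    have h : (1 + 1 - A - A * A) * (1 + 1 - A - A * A) = (3 : ℝ) • (1 + 1 - A - A * A) := by
      have e : (1 + 1 - A - A * A) * (1 + 1 - A - A * A)
          = 1 + 1 + 1 + 1 - (A + A + A + A) - (A * A + A * A + A * A) + (A * A * A + A * A * A)
            + (A * A * A) * A := by noncomm_ring
      rw [e, hA]
      have e3 : ((3 : ℝ) • (1 + 1 - A - A * A) : Matrix (Fin n) (Fin n) ℝ)
          = (1 + 1 - A - A * A) + (1 + 1 - A - A * A) + (1 + 1 - A - A * A) := by
        rw [show (3 : ℝ) = 1 + 1 + 1 by norm_num, add_smul, add_smul, one_smul]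
      rw [e3]
      noncomm_ring
    rw [hPdef, Matrix.smul_mul, Matrix.mul_smul, h, smul_smul, smul_smul]
    norm_num
  have h1 := trace_idem P hP
  have h2 : P.rank = moved A := by
    have h3 : P = (A - 1) * ((-1 / 3 : ℝ) • (1 + 1 + A)) := by
      rw [Matrix.mul_smul, hPdef]
      have : (A - 1) * (1 + 1 + A) = -(1 + 1 - A - A * A) := by noncomm_ring
      rw [this, smul_neg, ← neg_smul]
      norm_num
    have h4 : (A - 1) = P * (A - 1) := by
      have h5 : (3 : ℝ) • (A - 1) = (1 + 1 - A - A * A) * (A - 1) := by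
        have e : (1 + 1 - A - A * A) * (A - 1) = (A + A + A - 1 - 1) - A * A * A := by
          noncomm_ring
        have e3 : ((3 : ℝ) • (A - 1) : Matrix (Fin n) (Fin n) ℝ)
          = (A - 1) + (A - 1) + (A - 1) := by
          rw [show (3 : ℝ) = 1 + 1 + 1 by norm_num, add_smul, add_smul, one_smul]
        rw [e, hA, e3]
        noncomm_ring
      rw [hPdef, Matrix.smul_mul, ← h5, smul_smul]
      norm_num
    refine le_antisymm ?_ ?_
    · rw [h3]; exact Matrix.rank_mul_le_left _ _
    · unfold moved
      conv_lhs => rw [h4]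
      exact Matrix.rank_mul_le_left _ _
  have ht := trace_sq A hA
  rw [h2, hPdef, Matrix.trace_smul, Matrix.trace_sub, Matrix.trace_sub, ht, Matrix.trace_add,
    Matrix.trace_one, Fintype.card_fin, smul_eq_mul] at h1
  linarith

/-- a matrix that moves nothing is the identity -/
lemma moved_eq_zero (A : Matrix (Fin n) (Fin n) ℝ) (hA : moved A = 0) : A = 1 := by
  unfold moved Matrix.rank at hA
  have h1 : LinearMap.range (A - 1).mulVecLin = ⊥ := by
    rwa [Submodule.finrank_eq_zero] at hA
  rw [LinearMap.range_eq_bot] at h1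
  have h2 : A - 1 = 0 := by
    have h3 := Matrix.toLin'.injective (a₁ := A - 1) (a₂ := 0) (by
      rw [Matrix.toLin'_apply', map_zero]; exact h1)
    exact h3
  exact sub_eq_zero.mp h2

lemma moved_one : moved (1 : Matrix (Fin n) (Fin n) ℝ) = 0 := by
  unfold moved; simp

end Real

section Complex

/-- an isolated fixed point of an element of order two contributes nothing -/
lemma local_two (A : Matrix (Fin 2) (Fin 2) ℂ) (hA : A * A = 1) (h : (1 - A).det ≠ 0) :
    (1 + A).det / (1 - A).det = 0 := by
  have hu : IsUnit (1 - A) := by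
    rw [Matrix.isUnit_iff_isUnit_det]; exact isUnit_iff_ne_zero.mpr h
  have h1 : (1 - A) * (1 + A) = 0 := by
    have : (1 - A) * (1 + A) = 1 - A * A := by noncomm_ring
    rw [this, hA, sub_self]
  have h2 : 1 + A = 0 := by
    obtain ⟨u, hu⟩ := hu
    rw [← hu] at h1
    exact (Units.mul_right_eq_zero u).mp h1
  rw [h2, Matrix.det_zero, zero_div]

/-- at an isolated fixed point of an element of order three `A² + A + 1 = 0` -/
lemma quad_three (A : Matrix (Fin 2) (Fin 2) ℂ) (hA : A * A * A = 1) (h : (1 - A).det ≠ 0) :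
    1 + A + A * A = 0 := by
  have hu : IsUnit (1 - A) := by
    rw [Matrix.isUnit_iff_isUnit_det]; exact isUnit_iff_ne_zero.mpr h
  have h1 : (1 - A) * (1 + A + A * A) = 0 := by
    have : (1 - A) * (1 + A + A * A) = 1 - A * A * A := by noncomm_ring
    rw [this, hA, sub_self]
  obtain ⟨u, hu⟩ := hu
  rw [← hu] at h1
  exact (Units.mul_right_eq_zero u).mp h1

/-- the contribution of an isolated fixed point of an element of order three -/
lemma local_three (A : Matrix (Fin 2) (Fin 2) ℂ) (hA : A * A * A = 1) (h : (1 - A).det ≠ 0) :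
    (A.det = 1 ∧ (1 + A).det / (1 - A).det = 1 / 3) ∨
      (A.det ≠ 1 ∧ (1 + A).det / (1 - A).det = -1 / 3) := by
  have hq := quad_three A hA h
  obtain ⟨a, b, c, d, rfl⟩ : ∃ a b c d, A = !![a, b; c, d] :=
    ⟨A 0 0, A 0 1, A 1 0, A 1 1, by ext i j; fin_cases i <;> fin_cases j <;> rfl⟩
  have e00 := congrFun (congrFun hq 0) 0
  have e01 := congrFun (congrFun hq 0) 1
  have e10 := congrFun (congrFun hq 1) 0
  have e11 := congrFun (congrFun hq 1) 1
  simp [Matrix.mul_apply, Fin.sum_univ_two] at e00 e01 e10 e11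
  have hdet : (!![a, b; c, d] : Matrix (Fin 2) (Fin 2) ℂ).det = a * d - b * c := by
    rw [Matrix.det_fin_two]; simp
  have hplus : (1 + !![a, b; c, d] : Matrix (Fin 2) (Fin 2) ℂ).det
      = (1 + a) * (1 + d) - b * c := by
    rw [Matrix.det_fin_two]; simp
  have hminus : (1 - !![a, b; c, d] : Matrix (Fin 2) (Fin 2) ℂ).det
      = (1 - a) * (1 - d) - b * c := by
    rw [Matrix.det_fin_two]; simp
  rw [hminus] at h
  rw [hdet, hplus, hminus]
  by_cases ht : 1 + a + d = 0
  · left
    have hd : d = -1 - a := by linear_combination ht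
    subst hd
    have hbc : b * c = -(1 + a + a * a) := by linear_combination e00
    refine ⟨by linear_combination -hbc, ?_⟩
    rw [hbc] at h ⊢
    rw [div_eq_div_iff h (by norm_num)]
    ring
  · right
    have hb : b = 0 := by
      have : b * (1 + a + d) = 0 := by linear_combination e01
      rcases mul_eq_zero.mp this with h | h
      · exact h
      · exact absurd h ht
    have hc : c = 0 := by
      have : c * (1 + a + d) = 0 := by linear_combination e10
      rcases mul_eq_zero.mp this with h | h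
      · exact h
      · exact absurd h ht
    have had : a = d := by
      have : (a - d) * (1 + a + d) = 0 := by linear_combination e00 - e11
      rcases mul_eq_zero.mp this with h | h
      · exact sub_eq_zero.mp h
      · exact absurd h ht
    subst hb hc had
    have ha : 1 + a + a * a = 0 := by linear_combination e00
    refine ⟨?_, ?_⟩
    · intro h1
      have h2 : a = -2 := by linear_combination ha - h1
      rw [h2] at ha
      norm_num at ha
    · rw [div_eq_div_iff h (by norm_num)]
      linear_combination (4 : ℂ) * ha - 2 * ha + 2 * ha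

/-- the normal factor for an element of order two -/
lemma normal_two (ν : ℂ) (h1 : ν ^ 2 = 1) (h2 : ν ≠ 1) : -4 * ν / (1 - ν) ^ 2 = 1 := by
  have h3 : (ν - 1) * (ν + 1) = 0 := by linear_combination h1
  have h4 : ν = -1 := by
    rcases mul_eq_zero.mp h3 with h | h
    · exact absurd (sub_eq_zero.mp h) h2
    · linear_combination h
  rw [h4]; norm_num

/-- the normal factor for an element of order three -/
lemma normal_three (ν : ℂ) (h1 : ν ^ 3 = 1) (h2 : ν ≠ 1) : -4 * ν / (1 - ν) ^ 2 = 4 / 3 := by
  have h3 : (ν - 1) * (1 + ν + ν ^ 2) = 0 := by linear_combination h1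
  have h4 : 1 + ν + ν ^ 2 = 0 := by
    rcases mul_eq_zero.mp h3 with h | h
    · exact absurd (sub_eq_zero.mp h) h2
    · exact h
  have h5 : (1 - ν) ^ 2 ≠ 0 := pow_ne_zero 2 (sub_ne_zero.mpr (Ne.symm h2))
  rw [div_eq_div_iff h5 (by norm_num)]
  linear_combination (-4) * h4

/-- if `A`, `B`, `AB` and `AB²` have order three and no eigenvalue `1`, and `AB = BA`,
there is a contradiction -/
lemma no_two_three (A B : Matrix (Fin 2) (Fin 2) ℂ) (hcomm : A * B = B * A)
    (hA3 : A * A * A = 1) (hB3 : B * B * B = 1) (hA : (1 - A).det ≠ 0) (hB : (1 - B).det ≠ 0)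
    (hAB : (1 - A * B).det ≠ 0) (hABB : (1 - A * (B * B)).det ≠ 0) : False := by
  have qA := quad_three A hA3 hA
  have qB := quad_three B hB3 hB
  have hu : IsUnit (1 - A * (B * B)) := by
    rw [Matrix.isUnit_iff_isUnit_det]; exact isUnit_iff_ne_zero.mpr hABB
  have h1 : (1 - A * (B * B)) * (A + B + 1) = 0 := by
    have hA2 : A * A = -1 - A := by
      have : A * A = (1 + A + A * A) - 1 - A := by abel
      rw [this, qA]; abel
    have hB2 : B * B = -1 - B := by
      have : B * B = (1 + B + B * B) - 1 - B := by abel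
      rw [this, qB]; abel
    have e : (1 - A * (B * B)) * (A + B + 1)
        = A + B + 1 - A * (B * B * A) - A * (B * B * B) - A * (B * B) := by noncomm_ring
    have e2 : B * B * A = A * (B * B) := by
      rw [Matrix.mul_assoc, ← hcomm, ← Matrix.mul_assoc, ← hcomm, Matrix.mul_assoc]
    rw [e, e2, hB3, Matrix.mul_one]
    have e3 : A * (A * (B * B)) = (A * A) * (B * B) := by noncomm_ring
    rw [e3, hA2, hB2]
    noncomm_ring
  have h2 : A + B + 1 = 0 := by
    obtain ⟨u, hu⟩ := hu
    rw [← hu] at h1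
    exact (Units.mul_right_eq_zero u).mp h1
  have h3 : B = A * A := by
    have : B = (A + B + 1) - (1 + A + A * A) + A * A := by abel
    rw [this, h2, qA]; simp
  have h4 : A * B = 1 := by
    rw [h3, ← Matrix.mul_assoc, hA3]
  rw [h4, sub_self, Matrix.det_zero] at hAB
  exact hAB rfl

end Complex

end Pool.Agent.H18.SY
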