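import Mathlib
import Pool.Agent.H18.SY.Defs
import Pool.Agent.H18.SY.Mat

/-!
# Symplectic symmetries on the line `3σ = χ`
-/

namespace Pool.Agent.H18.SY

open Matrix

variable {G M : Type} [Group G] [MulAction G M]

section Lists

variable (L : List (Surface M))

lemma list_two (c : ℝ) (hc : ∀ S ∈ L, S.genus = 0 → (S.square : ℝ) ≤ -c)
    (h : ∀ S ∈ L, S.genus ≠ 0 → (S.square : ℝ) ≤ 2 * (S.genus : ℝ) - 2) :
    (L.map fun S => (S.square : ℝ)).sum + c * (L.countP fun S => S.genus = 0)
      + 2 * (L.countP fun S => S.genus ≠ 0) ≤ ((L.map fun S => 2 * S.genus).sum : ℕ) := by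
  induction L with
  | nil => simp
  | cons S L ih =>
    have h1 := ih (fun T hT => hc T (List.mem_cons_of_mem _ hT))
      (fun T hT => h T (List.mem_cons_of_mem _ hT))
    by_cases h0 : S.genus = 0
    · have h2 := hc S List.mem_cons_self h0
      simp only [List.map_cons, List.sum_cons, List.countP_cons, h0, decide_true, ne_eq,
        not_true_eq_false, decide_false, if_true] at h1 ⊢
      simp only [Bool.false_eq_true, if_false]
      push_cast at h1 ⊢
      linarith
    · have h2 := h S List.mem_cons_self h0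
      simp only [List.map_cons, List.sum_cons, List.countP_cons, h0, decide_true, ne_eq,
        not_false_eq_true, decide_false, if_true] at h1 ⊢
      simp only [Bool.false_eq_true, if_false]
      push_cast at h1 ⊢
      linarith

lemma list_three (c : ℝ) (hc : ∀ S ∈ L, S.genus = 0 → (S.square : ℝ) ≤ -c)
    (h : ∀ S ∈ L, S.genus ≠ 0 → (S.square : ℝ) ≤ 2 * (S.genus : ℝ) - 2) :
    (L.map fun S => 4 * (S.square : ℝ)).sum - (L.map fun S => 2 - 2 * (S.genus : ℝ)).sum
      + (4 * c + 2) * (L.countP fun S => S.genus = 0)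
      + 10 * (L.countP fun S => S.genus ≠ 0) ≤ 5 * ((L.map fun S => 2 * S.genus).sum : ℕ) := by
  induction L with
  | nil => simp
  | cons S L ih =>
    have h1 := ih (fun T hT => hc T (List.mem_cons_of_mem _ hT))
      (fun T hT => h T (List.mem_cons_of_mem _ hT))
    by_cases h0 : S.genus = 0
    · have h2 := hc S List.mem_cons_self h0
      simp only [List.map_cons, List.sum_cons, List.countP_cons, h0, decide_true, ne_eq,
        not_true_eq_false, decide_false, if_true] at h1 ⊢
      simp only [Bool.false_eq_true, if_false]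
      push_cast at h1 ⊢
      linarith
    · have h2 := h S List.mem_cons_self h0
      simp only [List.map_cons, List.sum_cons, List.countP_cons, h0, decide_true, ne_eq,
        not_false_eq_true, decide_false, if_true] at h1 ⊢
      simp only [Bool.false_eq_true, if_false]
      push_cast at h1 ⊢
      linarith

end Lists

namespace SymplecticAction

variable (D : SymplecticAction G M)

lemma sphere_bound (hD : D.NotPlane) {g : G} (hg : g ≠ 1) :
    ∀ S ∈ D.surfaces g, S.genus = 0 → (S.square : ℝ) ≤ -1 := by
  intro S hS h0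
  have h1 : S.square ≤ -1 := by
    rcases hD g hg S hS with h | h
    · omega
    · rw [h0] at h; push_cast at h; omega
  exact_mod_cast h1

lemma sphere_bound_min (hD : D.NotPlane) (hM : D.Minimal) {g : G} (hg : g ≠ 1) :
    ∀ S ∈ D.surfaces g, S.genus = 0 → (S.square : ℝ) ≤ -2 := by
  intro S hS h0
  have h1 : S.square ≤ -2 := by
    have h2 := hM g hg S hS h0
    rcases hD g hg S hS with h | h
    · omega
    · rw [h0] at h; push_cast at h; omega
  exact_mod_cast h1

lemma higher_bound (hD : D.NotPlane) {g : G} (hg : g ≠ 1) :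
    ∀ S ∈ D.surfaces g, S.genus ≠ 0 → (S.square : ℝ) ≤ 2 * (S.genus : ℝ) - 2 := by
  intro S hS h0
  have h1 : S.square ≤ 2 * (S.genus : ℤ) - 2 := by
    rcases hD g hg S hS with h | h
    · omega
    · exact h
  exact_mod_cast h1

lemma cast_pos_dim : ((2 * D.σ - 1 : ℕ) : ℝ) = 2 * D.σ - 1 := by
  have := D.pos
  rw [Nat.cast_sub (by omega)]; push_cast; ring

lemma cast_neg_dim : ((D.σ - 1 : ℕ) : ℝ) = D.σ - 1 := by
  have := D.pos
  rw [Nat.cast_sub (by omega)]; push_cast; ring

lemma lin_sq {g : G} {x : M} (hx : g • x = x) : D.lin (g * g) x = D.lin g x * D.lin g x :=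
  D.lin_mul g g x hx hx

lemma lin_cube {g : G} {x : M} (hx : g • x = x) :
    D.lin (g * g * g) x = D.lin g x * D.lin g x * D.lin g x := by
  rw [D.lin_mul (g * g) g x (by rw [mul_smul, hx, hx]) hx, D.lin_sq hx]

lemma mul_self_of_order_two {g : G} (hg : orderOf g = 2) : g * g = 1 := by
  rw [← sq, ← hg, pow_orderOf_eq_one]

lemma cube_of_order_three {g : G} (hg : orderOf g = 3) : g * g * g = 1 := by
  have h := pow_orderOf_eq_one g
  rw [hg, pow_succ, sq] at h
  exact h

lemma ne_one_of_order {g : G} {p : ℕ} (hg : orderOf g = p) (hp : 1 < p) : g ≠ 1 := by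
  rintro rfl
  rw [orderOf_one] at hg
  omega

/-- the traces of an element of order two -/
lemma traces_two {g : G} (hg : orderOf g = 2) :
    (D.Hp g).trace = 2 * D.σ - 1 - 2 * (moved (D.Hp g) : ℝ) ∧
      (D.Hm g).trace = D.σ - 1 - 2 * (moved (D.Hm g) : ℝ) := by
  have h := mul_self_of_order_two hg
  constructor
  · rw [trace_two (D.Hp g) (by rw [← map_mul, h, map_one]), D.cast_pos_dim]
  · rw [trace_two (D.Hm g) (by rw [← map_mul, h, map_one]), D.cast_neg_dim]

/-- the traces of an element of order three -/
lemma traces_three {g : G} (hg : orderOf g = 3) :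
    (D.Hp g).trace = 2 * D.σ - 1 - 3 / 2 * (moved (D.Hp g) : ℝ) ∧
      (D.Hm g).trace = D.σ - 1 - 3 / 2 * (moved (D.Hm g) : ℝ) := by
  have h := cube_of_order_three hg
  constructor
  · rw [trace_three (D.Hp g) (by rw [← map_mul, ← map_mul, h, map_one]), D.cast_pos_dim]
  · rw [trace_three (D.Hm g) (by rw [← map_mul, ← map_mul, h, map_one]), D.cast_neg_dim]

/-- the signature of an element of order two -/
lemma signature_two {g : G} (hg : orderOf g = 2) :
    (D.Hp g).trace - (D.Hm g).trace = ((D.surfaces g).map fun S => (S.square : ℝ)).sum := by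
  have hg1 := ne_one_of_order hg (by norm_num)
  have h := D.signature g hg1
  have h1 : ∑ x ∈ D.iso g, (1 + D.lin g x).det / (1 - D.lin g x).det = 0 := by
    refine Finset.sum_eq_zero fun x hx => ?_
    obtain ⟨hfix, hdet⟩ := (D.mem_iso g hg1 x).mp hx
    refine local_two _ ?_ hdet
    rw [← D.lin_sq hfix, mul_self_of_order_two hg, D.lin_one]
  have h2 : ((D.surfaces g).map fun S => (S.square : ℂ) * (-4 * S.normal / (1 - S.normal) ^ 2))
      = (D.surfaces g).map fun S => (S.square : ℂ) := by
    refine List.map_congr_left fun S hS => ?_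
    obtain ⟨h3, h4⟩ := D.normal_pow g hg1 S hS
    rw [hg] at h3
    rw [normal_two _ h3 h4, mul_one]
  rw [h1, h2, zero_add] at h
  have h3 : (((D.surfaces g).map fun S => (S.square : ℝ)).sum : ℂ)
      = ((D.surfaces g).map fun S => (S.square : ℂ)).sum := by
    rw [← Complex.ofRealHom_eq_coe, map_list_sum, List.map_map]
    congr 1
  rw [← h3] at h
  exact_mod_cast h

/-- the signature of an element of order three -/
lemma signature_three {g : G} (hg : orderOf g = 3) :
    3 * ((D.Hp g).trace - (D.Hm g).trace) = (D.iso g).card - 2 * (D.special g : ℝ)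
      + ((D.surfaces g).map fun S => 4 * (S.square : ℝ)).sum := by
  classical
  have hg1 := ne_one_of_order hg (by norm_num)
  have h := D.signature g hg1
  have h1 : ∑ x ∈ D.iso g, (1 + D.lin g x).det / (1 - D.lin g x).det
      = (((D.iso g).card - 2 * (D.special g : ℝ)) / 3 : ℝ) := by
    have e : ∀ x ∈ D.iso g, (1 + D.lin g x).det / (1 - D.lin g x).det
        = 1 / 3 - 2 / 3 * (if (D.lin g x).det ≠ 1 then 1 else 0) := by
      intro x hx
      obtain ⟨hfix, hdet⟩ := (D.mem_iso g hg1 x).mp hx
      have hA : D.lin g x * D.lin g x * D.lin g x = 1 := by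
        rw [← D.lin_cube hfix, cube_of_order_three hg, D.lin_one]
      rcases local_three _ hA hdet with ⟨h2, h3⟩ | ⟨h2, h3⟩
      · rw [h3, if_neg (by simpa using h2)]; norm_num
      · rw [h3, if_pos h2]; norm_num
    rw [Finset.sum_congr rfl e, Finset.sum_sub_distrib, Finset.sum_const, ← Finset.mul_sum,
      Finset.sum_ite, Finset.sum_const_zero, add_zero, Finset.sum_const]
    have e2 : D.special g = (Finset.filter (fun x => (D.lin g x).det ≠ 1) (D.iso g)).card := by
      unfold special
      congr
    rw [e2]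
    simp only [nsmul_eq_mul]
    push_cast
    ring
  have h2 : ((D.surfaces g).map fun S => (S.square : ℂ) * (-4 * S.normal / (1 - S.normal) ^ 2))
      = (D.surfaces g).map fun S => (S.square : ℂ) * (4 / 3) := by
    refine List.map_congr_left fun S hS => ?_
    obtain ⟨h3, h4⟩ := D.normal_pow g hg1 S hS
    rw [hg] at h3
    rw [normal_three _ h3 h4]
  rw [h1, h2] at h
  have h3 : ((((D.surfaces g).map fun S => 4 * (S.square : ℝ)).sum / 3 : ℝ) : ℂ)
      = ((D.surfaces g).map fun S => (S.square : ℂ) * (4 / 3)).sum := by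
    generalize D.surfaces g = L
    induction L with
    | nil => simp
    | cons S L ih =>
      simp only [List.map_cons, List.sum_cons]
      rw [← ih]
      push_cast
      ring
  rw [← h3] at h
  have h4 : (D.Hp g).trace - (D.Hm g).trace = ((D.iso g).card - 2 * (D.special g : ℝ)) / 3
      + ((D.surfaces g).map fun S => 4 * (S.square : ℝ)).sum / 3 := by
    exact_mod_cast h
  linarith

/-- the inequality for elements of order two -/
theorem order_two_real (hD : D.NotPlane) {g : G} (hg : orderOf g = 2) (c : ℝ)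
    (hc : ∀ S ∈ D.surfaces g, S.genus = 0 → (S.square : ℝ) ≤ -c) :
    (D.σ : ℝ) + moved (D.Hm g) + c * D.spheres g + 2 * D.higher g ≤ 3 * moved (D.Hp g) := by
  have hg1 := ne_one_of_order hg (by norm_num)
  have h1 := D.signature_two hg
  obtain ⟨h2, h3⟩ := D.traces_two hg
  have h4 := list_two (D.surfaces g) c hc (D.higher_bound hD hg1)
  have h5 := D.edmonds g (by rw [hg]; norm_num)
  rw [hg] at h5
  have h6 : ((((D.surfaces g).map fun S => 2 * S.genus).sum : ℕ) : ℝ)
      ≤ moved (D.Hp g) + moved (D.Hm g) := by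
    have : ((D.surfaces g).map fun S => 2 * S.genus).sum ≤ moved (D.Hp g) + moved (D.Hm g) := by
      simpa using h5
    exact_mod_cast this
  unfold spheres higher
  linarith

/-- the inequality for elements of order three -/
theorem order_three_real (hD : D.NotPlane) {g : G} (hg : orderOf g = 3) (c : ℝ)
    (hc : ∀ S ∈ D.surfaces g, S.genus = 0 → (S.square : ℝ) ≤ -c) :
    4 * (D.special g : ℝ) + 7 * moved (D.Hm g) + (8 * c + 4) * D.spheres g + 20 * D.higher g
      ≤ 11 * moved (D.Hp g) := by
  have hg1 := ne_one_of_order hg (by norm_num)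
  have h1 := D.signature_three hg
  obtain ⟨h2, h3⟩ := D.traces_three hg
  have h0 := D.lefschetz g hg1
  have h4 := list_three (D.surfaces g) c hc (D.higher_bound hD hg1)
  have h5 := D.edmonds g (by rw [hg]; norm_num)
  rw [hg] at h5
  have h6 : 2 * ((((D.surfaces g).map fun S => 2 * S.genus).sum : ℕ) : ℝ)
      ≤ moved (D.Hp g) + moved (D.Hm g) := by
    have : 2 * ((D.surfaces g).map fun S => 2 * S.genus).sum
        ≤ moved (D.Hp g) + moved (D.Hm g) := by
      simpa using h5
    exact_mod_cast this
  unfold spheres higher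
  linarith

end SymplecticAction

end Pool.Agent.H18.SY
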