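import Mathlib
import Pool.Agent.H18.SY.Core

/-!
# Groups that act trivially on `H⁺`
-/

namespace Pool.Agent.H18.SY

open Matrix

variable {G M : Type} [Group G] [MulAction G M]

namespace SymplecticAction

variable (D : SymplecticAction G M)

/-- an action which is trivial on `H⁺` has no involution -/
theorem not_order_two (hD : D.NotPlane) (hp : ∀ g, D.Hp g = 1) (g : G) : orderOf g ≠ 2 := by
  intro hg
  have h := D.order_two_real hD hg 1 (D.sphere_bound hD (ne_one_of_order hg (by norm_num)))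
  rw [hp g, moved_one] at h
  have h1 : (0 : ℝ) < D.σ := by exact_mod_cast D.pos
  have h2 : (0 : ℝ) ≤ (moved (D.Hm g) : ℝ) := Nat.cast_nonneg _
  have h3 : (0 : ℝ) ≤ (D.spheres g : ℝ) := Nat.cast_nonneg _
  have h4 : (0 : ℝ) ≤ (D.higher g : ℝ) := Nat.cast_nonneg _
  simp only [Nat.cast_zero, mul_zero] at h
  linarith

/-- `G` has odd order -/
theorem odd_card [Finite G] (hD : D.NotPlane) (hp : ∀ g, D.Hp g = 1) : Odd (Nat.card G) := by
  by_contra h
  rw [Nat.not_odd_iff_even, even_iff_two_dvd] at h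
  haveI : Fintype G := Fintype.ofFinite G
  rw [Nat.card_eq_fintype_card] at h
  obtain ⟨g, hg⟩ := exists_prime_orderOf_dvd_card 2 h
  exact D.not_order_two hD hp g hg

/-- an element of order three which acts trivially on `H⁺` acts trivially on `H₂`, and all its
fixed points are isolated, with determinant `1` -/
theorem order_three_trivial (hD : D.NotPlane) {g : G} (hp : D.Hp g = 1) (hg : orderOf g = 3) :
    D.Hm g = 1 ∧ D.surfaces g = [] ∧ (D.iso g).card = 3 * D.σ ∧
      ∀ x, g • x = x → x ∈ D.iso g ∧ (D.lin g x).det = 1 := by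
  have hg1 : g ≠ 1 := ne_one_of_order hg (by norm_num)
  have h := D.order_three_real hD hg 1 (D.sphere_bound hD hg1)
  rw [hp, moved_one] at h
  have h2 : (0 : ℝ) ≤ (moved (D.Hm g) : ℝ) := Nat.cast_nonneg _
  have h3 : (0 : ℝ) ≤ (D.spheres g : ℝ) := Nat.cast_nonneg _
  have h4 : (0 : ℝ) ≤ (D.higher g : ℝ) := Nat.cast_nonneg _
  have h5 : (0 : ℝ) ≤ (D.special g : ℝ) := Nat.cast_nonneg _
  simp only [Nat.cast_zero, mul_zero] at h
  have e2 : moved (D.Hm g) = 0 := by
    have : (moved (D.Hm g) : ℝ) = 0 := by linarith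
    exact_mod_cast this
  have e3 : D.spheres g = 0 := by
    have : (D.spheres g : ℝ) = 0 := by linarith
    exact_mod_cast this
  have e4 : D.higher g = 0 := by
    have : (D.higher g : ℝ) = 0 := by linarith
    exact_mod_cast this
  have e5 : D.special g = 0 := by
    have : (D.special g : ℝ) = 0 := by linarith
    exact_mod_cast this
  have hHm : D.Hm g = 1 := moved_eq_zero _ e2
  have hS : D.surfaces g = [] := by
    rw [List.eq_nil_iff_forall_not_mem]
    intro S hS
    unfold spheres at e3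
    unfold higher at e4
    rw [List.countP_eq_zero] at e3 e4
    have h6 := e3 S hS
    have h7 := e4 S hS
    simp only [decide_eq_true_eq] at h6 h7
    exact h7 h6
  refine ⟨hHm, hS, ?_, ?_⟩
  · have h0 := D.lefschetz g hg1
    rw [hp, hHm, Matrix.trace_one, Matrix.trace_one, Fintype.card_fin, Fintype.card_fin, hS,
      D.cast_pos_dim, D.cast_neg_dim, List.map_nil, List.sum_nil] at h0
    have : ((D.iso g).card : ℝ) = 3 * D.σ := by linarith
    exact_mod_cast this
  · intro x hx
    have h6 : x ∈ D.iso g := by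
      rw [D.mem_iso g hg1 x]
      refine ⟨hx, fun h0 => ?_⟩
      obtain ⟨S, hS', _⟩ := D.mem_surfaces g hg1 x hx h0
      rw [hS] at hS'
      simp at hS'
    refine ⟨h6, ?_⟩
    by_contra h7
    unfold special at e5
    rw [Finset.card_eq_zero, Finset.filter_eq_empty_iff] at e5
    exact e5 h6 h7

section Point

variable (hD : D.NotPlane) (hp : ∀ g, D.Hp g = 1) (P : Subgroup G) (hP : IsPGroup 3 P) (x : M)
  (hx : ∀ g ∈ P, g • x = x)

include hx in
lemma lin_pow {g : G} (hg : g ∈ P) (v : Fin 2 → ℂ) (hv : D.lin g x *ᵥ v = v) (k : ℕ) :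
    D.lin (g ^ k) x *ᵥ v = v := by
  induction k with
  | zero => rw [pow_zero, D.lin_one, Matrix.one_mulVec]
  | succ k ih =>
    rw [pow_succ, D.lin_mul _ _ _ (hx _ (P.pow_mem hg k)) (hx _ hg), ← Matrix.mulVec_mulVec, hv,
      ih]

include hD hp hP hx in
/-- no element of `P` except `1` has a fixed vector at `x` -/
lemma no_fixed_vector {g : G} (hg : g ∈ P) (v : Fin 2 → ℂ) (hv0 : v ≠ 0)
    (hv : D.lin g x *ᵥ v = v) : g = 1 := by
  by_contra hg1
  obtain ⟨n, hn⟩ := (IsPGroup.iff_orderOf.mp hP) ⟨g, hg⟩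
  have hn' : orderOf g = 3 ^ n := by
    rw [← hn, Subgroup.orderOf_mk]
  have hn0 : n ≠ 0 := by
    rintro rfl
    rw [pow_zero, orderOf_eq_one_iff] at hn'
    exact hg1 hn'
  obtain ⟨k, rfl⟩ := Nat.exists_eq_succ_of_ne_zero hn0
  have h3 : orderOf (g ^ (3 ^ k)) = 3 := by
    rw [orderOf_pow_of_dvd (by positivity) (by rw [hn']; exact pow_dvd_pow 3 (Nat.le_succ k)), hn',
      Nat.succ_eq_add_one, pow_succ, Nat.mul_div_cancel_left _ (by positivity)]
  have h4 := D.lin_pow P x hx hg v hv (3 ^ k)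
  have h5 := (D.order_three_trivial hD (hp _) h3).2.2.2 x (hx _ (P.pow_mem hg _))
  have h6 := ((D.mem_iso _ (ne_one_of_order h3 (by norm_num)) x).mp h5.1).2
  apply h6
  rw [← Matrix.exists_mulVec_eq_zero_iff]
  refine ⟨v, hv0, ?_⟩
  rw [Matrix.sub_mulVec, Matrix.one_mulVec, h4, sub_self]

end Point

end SymplecticAction

/-- a matrix which commutes with a non-scalar `2 × 2` matrix preserves its eigenlines -/
lemma eigenline (A B : Matrix (Fin 2) (Fin 2) ℂ) (hcomm : A * B = B * A) (w : ℂ)
    (hw : w ^ 2 ≠ 1) (hA : A.det = 1) (v : Fin 2 → ℂ) (hv0 : v ≠ 0) (hv : A *ᵥ v = w • v) :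
    ∃ c : ℂ, B *ᵥ v = c • v := by
  set u := B *ᵥ v with hu
  have hAu : A *ᵥ u = w • u := by
    rw [hu, Matrix.mulVec_mulVec, hcomm, ← Matrix.mulVec_mulVec, hv, Matrix.mulVec_smul]
  obtain ⟨a, b, c, d, rfl⟩ : ∃ a b c d, A = !![a, b; c, d] :=
    ⟨A 0 0, A 0 1, A 1 0, A 1 1, by ext i j; fin_cases i <;> fin_cases j <;> rfl⟩
  have v0 := congrFun hv 0
  have v1 := congrFun hv 1
  have u0 := congrFun hAu 0
  have u1 := congrFun hAu 1
  simp [Matrix.mulVec, dotProduct, Fin.sum_univ_two] at v0 v1 u0 u1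
  rw [Matrix.det_fin_two] at hA
  simp at hA
  have hDet : v 0 * u 1 - v 1 * u 0 = 0 := by
    by_contra hne
    have ha : a = w := by
      have : (a - w) * (v 0 * u 1 - v 1 * u 0) = 0 := by
        linear_combination u 1 * v0 - v 1 * u0
      rcases mul_eq_zero.mp this with h | h
      · exact sub_eq_zero.mp h
      · exact absurd h hne
    have hb : b = 0 := by
      have : b * (v 0 * u 1 - v 1 * u 0) = 0 := by
        linear_combination v 0 * u0 - u 0 * v0
      rcases mul_eq_zero.mp this with h | h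
      · exact h
      · exact absurd h hne
    have hd : d = w := by
      have : (d - w) * (v 0 * u 1 - v 1 * u 0) = 0 := by
        linear_combination v 0 * u1 - u 0 * v1
      rcases mul_eq_zero.mp this with h | h
      · exact sub_eq_zero.mp h
      · exact absurd h hne
    apply hw
    rw [ha, hb, hd] at hA
    linear_combination hA
  by_cases h0 : v 0 = 0
  · have h1 : v 1 ≠ 0 := by
      intro h1
      apply hv0
      ext i; fin_cases i
      · exact h0
      · exact h1
    refine ⟨u 1 / v 1, ?_⟩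
    ext i; fin_cases i
    · simp only [Fin.zero_eta, Pi.smul_apply, smul_eq_mul, h0, mul_zero]
      rw [h0, zero_mul, zero_sub, neg_eq_zero] at hDet
      rcases mul_eq_zero.mp hDet with h | h
      · exact absurd h h1
      · exact h
    · simp only [Fin.mk_one, Pi.smul_apply, smul_eq_mul]
      rw [div_mul_cancel₀ _ h1]
  · refine ⟨u 0 / v 0, ?_⟩
    ext i; fin_cases i
    · simp only [Fin.zero_eta, Pi.smul_apply, smul_eq_mul]
      rw [div_mul_cancel₀ _ h0]
    · simp only [Fin.mk_one, Pi.smul_apply, smul_eq_mul]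
      rw [div_mul_eq_mul_div, eq_div_iff h0]
      linear_combination hDet

end Pool.Agent.H18.SY
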