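import Mathlib
import Pool.Agent.H18.SY.Three

/-!
# Three-groups that act trivially on `H⁺`
-/

namespace Pool.Agent.H18.SY

open Matrix

variable {G M : Type} [Group G] [MulAction G M]

/-- a nontrivial finite three-group has a central element of order three -/
lemma exists_central [Finite G] (P : Subgroup G) (hP : IsPGroup 3 P) (hne : P ≠ ⊥) :
    ∃ z ∈ P, orderOf z = 3 ∧ ∀ h ∈ P, z * h = h * z := by
  haveI : Nontrivial P := by
    rw [Subgroup.nontrivial_iff_ne_bot]; exact hne
  haveI : Fact (Nat.Prime 3) := ⟨Nat.prime_three⟩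
  haveI := hP.center_nontrivial
  obtain ⟨c, hc⟩ := exists_ne (1 : Subgroup.center P)
  obtain ⟨n, hn⟩ := (IsPGroup.iff_orderOf.mp (hP.to_subgroup (Subgroup.center P))) c
  have hn0 : n ≠ 0 := by
    rintro rfl
    rw [pow_zero, orderOf_eq_one_iff] at hn
    exact hc hn
  obtain ⟨k, rfl⟩ := Nat.exists_eq_succ_of_ne_zero hn0
  have h3 : orderOf (c ^ (3 ^ k)) = 3 := by
    rw [orderOf_pow_of_dvd (by positivity) (by rw [hn]; exact pow_dvd_pow 3 (Nat.le_succ k)), hn,
      Nat.succ_eq_add_one, pow_succ, Nat.mul_div_cancel_left _ (by positivity)]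
  set z := c ^ (3 ^ k) with hz
  refine ⟨((z : P) : G), (z : P).2, ?_, ?_⟩
  · rw [Subgroup.orderOf_coe, Subgroup.orderOf_coe]; exact h3
  · intro h hh
    have h4 := Subgroup.mem_center_iff.mp z.2 ⟨h, hh⟩
    have h5 := congrArg Subtype.val h4
    exact h5.symm

lemma exists_cube_root : ∃ w : ℂ, w ^ 2 + w + 1 = 0 := by
  refine ⟨(-1 + (Real.sqrt 3 : ℂ) * Complex.I) / 2, ?_⟩
  have h3 : (Real.sqrt 3 : ℂ) ^ 2 = 3 := by
    rw [← Complex.ofReal_pow, Real.sq_sqrt (by norm_num)]; norm_num
  have hI := Complex.I_sq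
  linear_combination (Complex.I ^ 2 / 4) * h3 + (3 / 4) * hI

namespace SymplecticAction

variable (D : SymplecticAction G M)

/-- a three-group which acts trivially on `H⁺` and fixes a point is cyclic -/
theorem cyclic_of_fixed [Finite G] (hD : D.NotPlane) (hp : ∀ g, D.Hp g = 1) (P : Subgroup G)
    (hP : IsPGroup 3 P) (x : M) (hx : ∀ g ∈ P, g • x = x) : IsCyclic P := by
  by_cases hne : P = ⊥
  · subst hne
    infer_instance
  obtain ⟨z, hz, hz3, hcen⟩ := exists_central P hP hne
  obtain ⟨hiso, hdet⟩ := (D.order_three_trivial hD (hp z) hz3).2.2.2 x (hx z hz)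
  have hz1 : z ≠ 1 := ne_one_of_order hz3 (by norm_num)
  have hiso' := ((D.mem_iso z hz1 x).mp hiso).2
  have hA3 : D.lin z x * D.lin z x * D.lin z x = 1 := by
    rw [← D.lin_cube (hx z hz), cube_of_order_three hz3, D.lin_one]
  have hq := quad_three _ hA3 hiso'
  obtain ⟨w, hw⟩ := exists_cube_root
  have hw2 : w ^ 2 ≠ 1 := by
    intro h
    have h1 : w = -2 := by linear_combination hw - h
    rw [h1] at hw
    norm_num at hw
  have hdet0 : (D.lin z x - w • (1 : Matrix (Fin 2) (Fin 2) ℂ)).det = 0 := by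
    by_contra hne0
    have hu : IsUnit (D.lin z x - w • (1 : Matrix (Fin 2) (Fin 2) ℂ)) := by
      rw [Matrix.isUnit_iff_isUnit_det]; exact isUnit_iff_ne_zero.mpr hne0
    obtain ⟨u, hu⟩ := hu
    have h1 : (D.lin z x - w • (1 : Matrix (Fin 2) (Fin 2) ℂ))
        * (D.lin z x - (w ^ 2) • (1 : Matrix (Fin 2) (Fin 2) ℂ)) = 0 := by
      have e1 : (D.lin z x - w • (1 : Matrix (Fin 2) (Fin 2) ℂ))
          * (D.lin z x - (w ^ 2) • (1 : Matrix (Fin 2) (Fin 2) ℂ))
          = D.lin z x * D.lin z x - (w + w ^ 2) • D.lin z x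
            + (w ^ 3) • (1 : Matrix (Fin 2) (Fin 2) ℂ) := by
        simp only [Matrix.sub_mul, Matrix.mul_sub, Matrix.smul_mul, Matrix.mul_smul,
          Matrix.one_mul, Matrix.mul_one, add_smul, smul_sub, smul_smul]
        rw [show w ^ 2 * w = w ^ 3 by ring]
        abel
      have e2 : w + w ^ 2 = -1 := by linear_combination hw
      have e3 : w ^ 3 = 1 := by linear_combination (w - 1) * hw
      rw [e1, e2, e3, neg_smul, one_smul, one_smul, sub_neg_eq_add, ← hq]
      abel
    rw [← hu] at h1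
    have h2 := (Units.mul_right_eq_zero u).mp h1
    have h3 : D.lin z x = (w ^ 2) • (1 : Matrix (Fin 2) (Fin 2) ℂ) := sub_eq_zero.mp h2
    rw [h3, Matrix.det_smul, Matrix.det_one, Fintype.card_fin, mul_one] at hdet
    have h4 : w = 1 := by linear_combination hdet - (w ^ 2 - w) * hw
    rw [h4] at hw2
    exact hw2 (by norm_num)
  obtain ⟨v, hv0, hv⟩ := Matrix.exists_mulVec_eq_zero_iff.mpr hdet0
  rw [Matrix.sub_mulVec, Matrix.smul_mulVec, Matrix.one_mulVec, sub_eq_zero] at hv
  have hex : ∀ h : P, ∃ c : ℂ, D.lin (h : G) x *ᵥ v = c • v := by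
    intro h
    refine eigenline (D.lin z x) (D.lin h x) ?_ w hw2 hdet v hv0 hv
    rw [← D.lin_mul _ _ _ (hx z hz) (hx h h.2), ← D.lin_mul _ _ _ (hx h h.2) (hx z hz),
      hcen h h.2]
  choose f hf using hex
  have huniq : ∀ a b : ℂ, a • v = b • v → a = b := by
    intro a b hab
    have h1 : (a - b) • v = 0 := by rw [sub_smul, hab, sub_self]
    rcases smul_eq_zero.mp h1 with h | h
    · exact sub_eq_zero.mp h
    · exact absurd h hv0
  have hf1 : f 1 = 1 := by
    apply huniq
    rw [← hf 1, one_smul, Subgroup.coe_one, D.lin_one, Matrix.one_mulVec]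
  have hfm : ∀ a b : P, f (a * b) = f a * f b := by
    intro a b
    apply huniq
    rw [← hf (a * b), Subgroup.coe_mul, D.lin_mul _ _ _ (hx a a.2) (hx b b.2),
      ← Matrix.mulVec_mulVec, hf b, Matrix.mulVec_smul, hf a, smul_smul, mul_comm]
  let F : P →* ℂ := { toFun := f, map_one' := hf1, map_mul' := hfm }
  refine isCyclic_of_injective_ringHom F ?_
  intro a b hab
  have h1 : f (a⁻¹ * b) = 1 := by
    have hab' : f a = f b := hab
    rw [hfm, ← hab', ← hfm, inv_mul_cancel, hf1]
  have h2 := hf (a⁻¹ * b)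
  rw [h1, one_smul] at h2
  have h3 := D.no_fixed_vector hD hp P hP x hx (g := ((a⁻¹ * b : P) : G)) (a⁻¹ * b).2 v hv0 h2
  have h4 : a⁻¹ * b = 1 := Subtype.ext h3
  exact (inv_mul_eq_one.mp h4)

end SymplecticAction

/-- if `n` divides `m` times the size of every orbit of a finite group on a finite set, it divides
`m` times the number of elements of the set -/
lemma dvd_card_of_orbits {H X : Type} [Group H] [Finite H] [MulAction H X] [Finite X] (n m : ℕ)
    (h : ∀ x : X, n ∣ Nat.card (MulAction.orbit H x) * m) : n ∣ Nat.card X * m := by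
  classical
  haveI : Fintype (MulAction.orbitRel.Quotient H X) := Fintype.ofFinite _
  rw [Nat.card_congr (MulAction.selfEquivSigmaOrbits H X), Nat.card_sigma, Finset.sum_mul]
  exact Finset.dvd_sum fun ω _ => h _

namespace SymplecticAction

variable (D : SymplecticAction G M)

/-- a three-group of exponent `3^e` which acts trivially on `H⁺` has order dividing `3^(e+1) σ` -/
theorem card_dvd [Finite G] (hD : D.NotPlane) (hp : ∀ g, D.Hp g = 1) (P : Subgroup G)
    (hP : IsPGroup 3 P) (e : ℕ) (he : ∀ g ∈ P, g ^ 3 ^ e = 1) :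
    Nat.card P ∣ 3 ^ (e + 1) * D.σ := by
  by_cases hne : P = ⊥
  · subst hne
    simp
  obtain ⟨z, hz, hz3, hcen⟩ := exists_central P hP hne
  obtain ⟨-, -, hcard, hall⟩ := D.order_three_trivial hD (hp z) hz3
  have hz1 : z ≠ 1 := ne_one_of_order hz3 (by norm_num)
  have hfix : ∀ x, x ∈ D.iso z → z • x = x := fun x hx => ((D.mem_iso z hz1 x).mp hx).1
  have hstab : ∀ h : P, ∀ x, x ∈ D.iso z → (h : G) • x ∈ D.iso z := by
    intro h x hx
    refine (hall _ ?_).1
    rw [← mul_smul, hcen h h.2, mul_smul, hfix x hx]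
  letI : MulAction P {x // x ∈ D.iso z} :=
    { smul := fun h x => ⟨(h : G) • (x : M), hstab h x x.2⟩
      one_smul := fun x => Subtype.ext (one_smul G (x : M))
      mul_smul := fun a b x => Subtype.ext (mul_smul (a : G) (b : G) (x : M)) }
  have key : Nat.card P ∣ Nat.card {x // x ∈ D.iso z} * 3 ^ e := by
    refine dvd_card_of_orbits (H := P) _ _ fun x => ?_
    set Q : Subgroup G := (MulAction.stabilizer P x).map P.subtype with hQ
    have hQP : IsPGroup 3 Q := by
      rw [hQ]
      exact (hP.to_subgroup _).map _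
    have hQx : ∀ g ∈ Q, g • (x : M) = x := by
      intro g hg
      rw [hQ, Subgroup.mem_map] at hg
      obtain ⟨h, hh, rfl⟩ := hg
      exact congrArg Subtype.val (MulAction.mem_stabilizer_iff.mp hh)
    have hcyc := D.cyclic_of_fixed hD hp Q hQP (x : M) hQx
    have hQe : Nat.card Q ∣ 3 ^ e := by
      obtain ⟨g, hg⟩ := hcyc.exists_generator
      rw [← orderOf_eq_card_of_forall_mem_zpowers hg]
      refine orderOf_dvd_of_pow_eq_one (Subtype.ext ?_)
      rw [Subgroup.coe_pow, Subgroup.coe_one]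
      obtain ⟨h, _, hh⟩ := Subgroup.mem_map.mp g.2
      rw [← hh]
      exact he _ h.2
    have hQc : Nat.card Q = Nat.card (MulAction.stabilizer P x) := by
      rw [hQ]
      exact Nat.card_congr ((MulAction.stabilizer P x).equivMapOfInjective P.subtype
        P.subtype_injective).symm.toEquiv
    have horb : Nat.card (MulAction.orbit P x) * Nat.card (MulAction.stabilizer P x)
        = Nat.card P := by
      rw [← Nat.card_prod, Nat.card_congr (MulAction.orbitProdStabilizerEquivGroup P x)]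
    rw [← horb, ← hQc]
    exact Nat.mul_dvd_mul_left _ hQe
  have hc : Nat.card {x // x ∈ D.iso z} = 3 * D.σ := by
    rw [Nat.card_eq_fintype_card, Fintype.card_coe, hcard]
  rw [hc] at key
  rw [pow_succ, mul_assoc, mul_comm]
  exact key

/-- on a homotopy plane every symplectic action is trivial on `H⁺` -/
theorem Hp_of_one (hσ : D.σ = 1) (g : G) : D.Hp g = 1 := by
  have hn : 2 * D.σ - 1 = 1 := by omega
  have h0 : ∀ i j : Fin (2 * D.σ - 1), i = j := by
    intro i j; apply Fin.ext; omega
  have hform : ∀ i, D.form i ≠ 0 := by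
    intro i hi
    apply D.form_ne
    funext j
    rw [h0 j i, hi]; rfl
  ext i j
  have h1 := congrFun (D.form_inv g) i
  have h2 : (D.Hp g *ᵥ D.form) i = D.Hp g i i * D.form i := by
    rw [Matrix.mulVec, dotProduct, Finset.sum_eq_single i]
    · intro b _ hb
      exact absurd (h0 b i) hb
    · intro h; exact absurd (Finset.mem_univ _) h
  rw [h2] at h1
  rw [h0 j i, Matrix.one_apply_eq]
  have h3 : (D.Hp g i i - 1) * D.form i = 0 := by rw [sub_mul, h1, one_mul, sub_self]
  rcases mul_eq_zero.mp h3 with h | h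
  · exact sub_eq_zero.mp h
  · exact absurd h (hform i)

end SymplecticAction

end Pool.Agent.H18.SY
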