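import Mathlib
import Pool.Agent.H18.SY.Cyclic

/-!
# The axioms of `SymplecticAction` are consistent

For every `s > 0` there is a structure `SymplecticAction` for a group of order three, with `σ = s`,
trivial on `H⁺` and `H⁻`, with `3 s` isolated fixed points; and there is one for a group of order
two with `σ = 3`, which moves two dimensions of `H⁺` and has a fixed sphere of square `-1` and three
isolated fixed points.
-/

namespace Pool.Agent.H18.SY

open Matrix

/-- the differential at each point: the diagonal matrix with entries `w^k`, `w^(2k)` -/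
noncomputable def dg (w : ℂ) (g : Multiplicative (ZMod 3)) : Matrix (Fin 2) (Fin 2) ℂ :=
  !![w ^ (g.toAdd).val, 0; 0, w ^ (2 * (g.toAdd).val)]

lemma w_pow_val (w : ℂ) (h3 : w ^ 3 = 1) (a b : ZMod 3) :
    w ^ (a + b).val = w ^ a.val * w ^ b.val := by
  rw [← pow_add, ZMod.val_add]
  conv_rhs => rw [← Nat.div_add_mod (a.val + b.val) 3, pow_add, pow_mul, h3, one_pow, one_mul]

lemma dg_mul (w : ℂ) (h3 : w ^ 3 = 1) (g h : Multiplicative (ZMod 3)) :
    dg w (g * h) = dg w g * dg w h := by
  unfold dg
  rw [toAdd_mul]
  have h1 := w_pow_val w h3 g.toAdd h.toAdd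
  have h2 : w ^ (2 * (g.toAdd + h.toAdd).val)
      = w ^ (2 * (g.toAdd).val) * w ^ (2 * (h.toAdd).val) := by
    rw [mul_comm 2, pow_mul, h1, mul_pow, ← pow_mul, ← pow_mul, mul_comm _ 2, mul_comm _ 2]
  rw [h1, h2]
  ext i j
  fin_cases i <;> fin_cases j <;> simp [Matrix.mul_apply, Fin.sum_univ_two]

lemma val_cases (g : Multiplicative (ZMod 3)) (hg : g ≠ 1) :
    (g.toAdd).val = 1 ∨ (g.toAdd).val = 2 := by
  have h1 : g.toAdd ≠ 0 := by
    intro h
    exact hg (Multiplicative.toAdd.injective h)
  have h2 : (g.toAdd).val < 3 := ZMod.val_lt _
  have h3 : (g.toAdd).val ≠ 0 := by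
    rwa [ne_eq, ZMod.val_eq_zero]
  omega

lemma dg_det (w : ℂ) (hw : w ^ 2 + w + 1 = 0) (g : Multiplicative (ZMod 3)) (hg : g ≠ 1) :
    (1 - dg w g).det = 3 ∧ (1 + dg w g).det = 1 := by
  have h3 : w ^ 3 = 1 := by linear_combination (w - 1) * hw
  unfold dg
  rw [Matrix.det_fin_two, Matrix.det_fin_two]
  rcases val_cases g hg with h | h
  · rw [h]
    simp
    constructor
    · linear_combination h3 - hw
    · linear_combination h3 + hw
  · rw [h]
    simp
    constructor
    · linear_combination (w ^ 3 + 1 - w) * h3 - hw
    · linear_combination (w ^ 3 + 1 + w) * h3 + hw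

/-- the consistency of the axioms, for a group of order three -/
theorem exists_order_three (s : ℕ) (hs : 0 < s) :
    ∃ (_ : MulAction (Multiplicative (ZMod 3)) (Fin (3 * s)))
      (D : SymplecticAction (Multiplicative (ZMod 3)) (Fin (3 * s))),
      D.σ = s ∧ D.NotPlane ∧ D.Minimal ∧ ∀ g, D.Hp g = 1 := by
  obtain ⟨w, hw⟩ := exists_cube_root
  have h3 : w ^ 3 = 1 := by linear_combination (w - 1) * hw
  let act : MulAction (Multiplicative (ZMod 3)) (Fin (3 * s)) :=
    { smul := fun _ x => x, one_smul := fun _ => rfl, mul_smul := fun _ _ _ => rfl }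
  refine ⟨act, ?_⟩
  let D : SymplecticAction (Multiplicative (ZMod 3)) (Fin (3 * s)) :=
    { σ := s
      pos := hs
      Hp := 1
      Hm := 1
      form := fun _ => 1
      form_ne := by
        intro h
        have := congrFun h ⟨0, by omega⟩
        simp at this
      form_inv := fun g => by rw [MonoidHom.one_apply, Matrix.one_mulVec]
      lin := fun g _ => dg w g
      lin_one := fun x => by
        unfold dg
        ext i j
        fin_cases i <;> fin_cases j <;> simp
      lin_mul := fun g h x _ _ => dg_mul w h3 g h
      iso := fun _ => Finset.univ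
      mem_iso := by
        intro g hg x
        refine ⟨fun _ => ⟨rfl, ?_⟩, fun _ => Finset.mem_univ _⟩
        rw [(dg_det w hw g hg).1]
        norm_num
      surfaces := fun _ => []
      mem_surfaces := by
        intro g hg x _ h
        rw [(dg_det w hw g hg).1] at h
        norm_num at h
      normal_pow := by
        intro g _ S hS
        simp at hS
      lefschetz := by
        intro g _
        rw [MonoidHom.one_apply, MonoidHom.one_apply, Matrix.trace_one, Matrix.trace_one,
          Fintype.card_fin, Fintype.card_fin, Finset.card_univ, Fintype.card_fin, List.map_nil,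
          List.sum_nil]
        rw [Nat.cast_sub (by omega), Nat.cast_sub (by omega)]
        push_cast
        ring
      signature := by
        intro g hg
        rw [MonoidHom.one_apply, MonoidHom.one_apply, Matrix.trace_one, Matrix.trace_one,
          Fintype.card_fin, Fintype.card_fin, List.map_nil, List.sum_nil, Finset.sum_const,
          (dg_det w hw g hg).1, (dg_det w hw g hg).2, Finset.card_univ, Fintype.card_fin]
        rw [Nat.cast_sub (by omega), Nat.cast_sub (by omega)]
        simp only [nsmul_eq_mul]
        push_cast
        ring
      edmonds := by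
        intro g _
        simp }
  refine ⟨D, rfl, ?_, ?_, fun g => rfl⟩
  · intro g _ S hS
    have : S ∈ ([] : List (Surface (Fin (3 * s)))) := hS
    simp at this
  · intro g _ S hS
    have : S ∈ ([] : List (Surface (Fin (3 * s)))) := hS
    simp at this

section Two

/-- the nontrivial character of the group of order two -/
noncomputable def sgn : Multiplicative (ZMod 2) →* ℝ where
  toFun g := (-1) ^ (g.toAdd).val
  map_one' := by simp
  map_mul' g h := by
    rw [toAdd_mul, ← pow_add, ZMod.val_add]
    conv_rhs => rw [← Nat.div_add_mod ((g.toAdd).val + (h.toAdd).val) 2, pow_add, pow_mul]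
    norm_num

lemma sgn_ne (g : Multiplicative (ZMod 2)) (hg : g ≠ 1) : sgn g = -1 := by
  have h1 : g.toAdd ≠ 0 := by
    intro h
    exact hg (Multiplicative.toAdd.injective h)
  have h2 : (g.toAdd).val < 2 := ZMod.val_lt _
  have h3 : (g.toAdd).val ≠ 0 := by
    rwa [ne_eq, ZMod.val_eq_zero]
  have h4 : (g.toAdd).val = 1 := by omega
  show (-1 : ℝ) ^ (g.toAdd).val = -1
  rw [h4, pow_one]

/-- the diagonal entries of the action on `H⁺` -/
noncomputable def dp (g : Multiplicative (ZMod 2)) (i : Fin 5) : ℝ := if i.val < 3 then 1 else sgn g

/-- the differential at each point: `-1` at the three isolated points `0`, `1`, `2` -/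
noncomputable def dl (g : Multiplicative (ZMod 2)) (x : Fin 4) : Matrix (Fin 2) (Fin 2) ℂ :=
  !![if x = 3 then 1 else (sgn g : ℂ), 0; 0, (sgn g : ℂ)]

lemma order_two_val (g : Multiplicative (ZMod 2)) (hg : g ≠ 1) : orderOf g = 2 := by
  have h : g ^ 2 = 1 := by
    revert g; decide
  exact orderOf_eq_prime h hg

/-- the consistency of the axioms, for a group of order two -/
theorem exists_order_two :
    ∃ (_ : MulAction (Multiplicative (ZMod 2)) (Fin 4))
      (D : SymplecticAction (Multiplicative (ZMod 2)) (Fin 4)) (g : Multiplicative (ZMod 2)),
      orderOf g = 2 ∧ D.σ = 3 ∧ D.NotPlane ∧ (D.iso g).card = 3 ∧ D.spheres g = 1 := by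
  let act : MulAction (Multiplicative (ZMod 2)) (Fin 4) :=
    { smul := fun _ x => x, one_smul := fun _ => rfl, mul_smul := fun _ _ _ => rfl }
  refine ⟨act, ?_⟩
  let D : SymplecticAction (Multiplicative (ZMod 2)) (Fin 4) :=
    { σ := 3
      pos := by norm_num
      Hp :=
        { toFun := fun g => Matrix.diagonal (dp g)
          map_one' := by
            ext i j
            unfold dp
            by_cases hij : i = j
            · subst hij; simp
            · rw [Matrix.diagonal_apply_ne _ hij, Matrix.one_apply_ne hij]
          map_mul' := by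
            intro g h
            rw [Matrix.diagonal_mul_diagonal]
            congr 1
            funext i
            unfold dp
            split_ifs
            · norm_num
            · rw [map_mul] }
      Hm := 1
      form := fun i => if i.val < 3 then 1 else 0
      form_ne := by
        intro h
        have := congrFun h (0 : Fin 5)
        simp at this
      form_inv := by
        intro g
        funext i
        change (Matrix.diagonal (dp g) *ᵥ fun i : Fin 5 => if i.val < 3 then (1 : ℝ) else 0) i = _
        rw [Matrix.mulVec_diagonal]
        unfold dp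
        split_ifs <;> simp
      lin := dl
      lin_one := fun x => by
        unfold dl
        ext i j
        fin_cases i <;> fin_cases j <;> simp
      lin_mul := by
        intro g h x _ _
        unfold dl
        ext i j
        fin_cases i <;> fin_cases j <;> simp [Matrix.mul_apply, Fin.sum_univ_two]
        split_ifs <;> simp
      iso := fun _ => {0, 1, 2}
      mem_iso := by
        intro g hg x
        have h0 : (g • x = x) ↔ True := ⟨fun _ => trivial, fun _ => rfl⟩
        unfold dl
        rw [sgn_ne g hg, Matrix.det_fin_two, h0, true_and]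
        fin_cases x <;> simp <;> norm_num
      surfaces := fun _ => [⟨{3}, 0, -1, -1⟩]
      mem_surfaces := by
        intro g hg x _ h
        unfold dl at h
        rw [sgn_ne g hg, Matrix.det_fin_two] at h
        fin_cases x <;> simp at h ⊢ <;> norm_num at h
      normal_pow := by
        intro g hg S hS
        rw [List.mem_singleton] at hS
        subst hS
        rw [order_two_val g hg]
        norm_num
      lefschetz := by
        intro g hg
        change 2 + (Matrix.diagonal (dp g)).trace + _ = _
        rw [MonoidHom.one_apply, Matrix.trace_one, Matrix.trace_diagonal]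
        simp [Fin.sum_univ_five, dp, sgn_ne g hg]
        norm_num
      signature := by
        intro g hg
        change (((Matrix.diagonal (dp g)).trace - _ : ℝ) : ℂ) = _
        rw [MonoidHom.one_apply, Matrix.trace_one, Matrix.trace_diagonal]
        simp [Fin.sum_univ_five, dp, dl, sgn_ne g hg, Matrix.det_fin_two]
        norm_num
      edmonds := by
        intro g _
        simp }
  refine ⟨D, Multiplicative.ofAdd 1, ?_, rfl, ?_, rfl, rfl⟩
  · exact order_two_val _ (by decide)
  · intro g _ S hS
    have h : S ∈ ([⟨{3}, 0, -1, -1⟩] : List (Surface (Fin 4))) := hS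
    rw [List.mem_singleton] at h
    subst h
    left
    norm_num

end Two

end Pool.Agent.H18.SY
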